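import Mathlib
import Pool.Agent.H410R3.DG.SS

/-!
# MP_c32980_lc: the diffeomorphisms conjugate to a structurally stable one form a Borel set

Idea: the topological conjugacy classes of structurally stable diffeomorphisms contain disjoint
nonempty open subsets of `Diff^1(M)`, which is second countable, so there are only countably many of
them. Each class is the preimage, under the continuous inclusion `Diff^∞(M) → C(M, M)`, of an orbit
of the Polish group `Homeo(M)` acting by conjugation, and such an orbit is Borel: the saturations of
open subsets of `Homeo(M)` are open, so there is a Borel transversal for the cosets of the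
centraliser, on which the orbit map is injective (Lusin-Souslin).
-/

open scoped Manifold ContDiff
open Pool.Agent.H410R3.KS Pool.Agent.H410R3.DG

namespace Pool.Agent.Results.MP_c32980_lc.ConjToStableBorel

/-- For every closed smooth manifold `M`, of any dimension `n`, the set `𝒮(M)` of the `C^∞`
diffeomorphisms of `M` which are topologically conjugate to a structurally stable diffeomorphism of
`M` (of class `C^r`, where `r` is any element of `{1, 2, …, ∞}`; the case of the problem is
`r = ∞`) is a Borel subset of `Diff^∞(M)` with the `C^∞` topology. -/
theorem result (n : ℕ) (M : Type) [TopologicalSpace M] [ChartedSpace (EuclideanSpace ℝ (Fin n)) M]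
    [IsManifold (𝓡 n) ∞ M] [CompactSpace M] [T2Space M] (r : ℕ∞) (hr : 1 ≤ r) :
    @MeasurableSet (DiffR (𝓡 n) M ⊤) (@borel _ (crTopology (𝓡 n) M ⊤))
      (conjToStable (𝓡 n) M ⊤ hr) :=
  conjToStable_borel ⊤ hr

end Pool.Agent.Results.MP_c32980_lc.ConjToStableBorel
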